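import Mathlib
import Pool.Agent.X37.RD.Gold

/-!
# Goldbach partitions into almost primes, one of them in a given short interval and with restricted digits

Let `N` be even, `(x, x + y)` an interval with `x + 2 y ≤ N ≤ y ^ E` (for instance the part `(√N, 4 √N)` of the
question) and `K = log_b (y / 3)`. Among the `m` in the interval whose last `K` digits in base `b` belong to
prescribed sets `A 0, ..., A (K - 1)` there are at least `κ |A 0| ⋯ |A (K - 1)| S(N) / K ^ 2` for which `m` and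
`N - m` have at most `r` prime factors, all of them larger than `b ^ (K / r)`, and at most
`C |A 0| ⋯ |A (K - 1)| S(N) / K ^ 2` for which `m` and `N - m` are primes, `S(N)` being the product of
`(p - 1) / (p - 2)` over the odd primes `p ∣ N`. The sets are arbitrary sets of digits with
`|A 0| ⋯ |A (K - 1)| ≥ exp (- c K) b ^ K`.
-/

set_option autoImplicit false

namespace Pool.Agent.Results.MP_b58c63_nt.RestrictedDigits

open Finset Filter

/-- the product of `(p - 1) / (p - 2)` over the odd prime divisors of `N` -/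
noncomputable def sing (N : ℕ) : ℝ := ∏ p ∈ N.primeFactors.filter (fun p => p ≠ 2), ((p : ℝ) - 1) / (p - 2)

/-- the `m` with `x < m < x + y` for which `m` and `N - m` have at most `r` prime factors each (counted with
multiplicity), all of them larger than `z ^ (1 / r)` -/
def Almost (N x y r z : ℕ) : Set ℕ := {m | (x < m ∧ m < x + y) ∧
  (∀ p : ℕ, p.Prime → p ∣ m → z < p ^ r) ∧ m.primeFactorsList.length ≤ r ∧
  (∀ p : ℕ, p.Prime → p ∣ N - m → z < p ^ r) ∧ (N - m).primeFactorsList.length ≤ r}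

/-- the primes `m` with `x < m < x + y` for which `N - m` is a prime -/
def Primes (N x y : ℕ) : Set ℕ := {m | (x < m ∧ m < x + y) ∧ m.Prime ∧ (N - m).Prime}

/-- the number of the elements of `S` whose `i`-th digit in base `b` belongs to `A i` for all `i < K` -/
noncomputable def count (b K : ℕ) (A : ℕ → Finset ℕ) (S : Set ℕ) : ℕ :=
  {m : ℕ | m ∈ S ∧ ∀ i < K, m / b ^ i % b ∈ A i}.ncard

/-- the number of choices of the `K` digits -/
def choices (K : ℕ) (A : ℕ → Finset ℕ) : ℕ := ∏ i ∈ range K, (A i).card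

theorem result (E : ℕ) :
    ∃ c : ℝ, 0 < c ∧ ∃ r₀ : ℕ, 2 ≤ r₀ ∧ ∀ r : ℕ, r₀ ≤ r → ∀ b : ℕ, 2 ≤ b → ∃ κ C : ℝ, 0 < κ ∧ 0 < C ∧
      ∀ᶠ y : ℕ in atTop, ∀ N x : ℕ, Even N → N ≤ y ^ E → x + 2 * y ≤ N → ∀ K : ℕ, K = Nat.log b (y / 3) →
        ∀ A : ℕ → Finset ℕ, (∀ i < K, A i ⊆ range b) → (b : ℝ) ^ K ≤ Real.exp (c * K) * choices K A →
        ((∃ d ∈ A 0, d.Coprime b ∧ (N - d).Coprime b) →
          κ * choices K A * sing N / (K : ℝ) ^ 2 ≤ count b K A (Almost N x y r (b ^ K))) ∧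
        (count b K A (Primes N x y) : ℝ) ≤ C * choices K A * sing N / (K : ℝ) ^ 2 := by
  classical
  obtain ⟨c, hc, r₀, hr₀, h⟩ := Pool.Agent.X37.RD.int_poly 2 (2 * E) (by norm_num)
  refine ⟨c, hc, r₀, hr₀, fun r hr b hb => ?_⟩
  have h2r : 2 ≤ r := hr₀.trans hr
  obtain ⟨κ, C, hκ, hC, h1⟩ := h r hr b hb
  obtain ⟨v, Cv, hv, hCv, hW⟩ := Pool.Agent.Y816.PD.WG_bounds {0, 2}
    (fun p hp => by
      rcases hp.eq_two_or_odd' with rfl | hodd
      · exact ⟨1, fun h hh => by simp only [mem_insert, mem_singleton] at hh; omega⟩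
      · refine ⟨2, fun h hh => ?_⟩
        have h3 : 3 ≤ p := by have := hp.two_le; rcases hodd with ⟨k, hk⟩; omega
        simp only [mem_insert, mem_singleton] at hh
        rcases hh with rfl | rfl
        · intro hd
          have := Nat.le_of_dvd (by norm_num) hd
          omega
        · intro hd
          have h4 : p ∣ 2 ^ 2 := hd
          have h5 := hp.dvd_of_dvd_pow h4
          have := Nat.le_of_dvd (by norm_num) h5
          omega) 2 (by decide) b hb
  refine ⟨κ * v / 2 ^ (4 * E), C * Cv, by positivity, by positivity, ?_⟩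
  obtain ⟨K0, hK0⟩ := eventually_atTop.1 hW
  filter_upwards [h1, eventually_ge_atTop (3 * b ^ (K0 + 1 + 1)), eventually_ge_atTop b] with
    y hy hyK hyb N x hNe hNE hxy K hK A hA hprod
  obtain ⟨hKK, hb1, hb2⟩ := Pool.Agent.Y816.PD.log_three hb (K0 + 1 + 1) hyK hK
  have hb0 : 0 < b := by omega
  have hbK0 : 0 < b ^ K := by positivity
  have hN0 : 0 < N := by
    have : 0 < b ^ (K0 + 1 + 1) := by positivity
    omega
  have hKpos : (0 : ℝ) < K := by
    have : 0 < K := by omega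
    exact_mod_cast this
  have hNA : Pool.Agent.Y816.PD.NA K A = ((choices K A : ℕ) : ℝ) := by
    unfold Pool.Agent.Y816.PD.NA choices
    push_cast
    rfl
  have hNA0 : (0 : ℝ) ≤ (choices K A : ℝ) := Nat.cast_nonneg _
  have e1 : y ≤ (b ^ K) ^ 4 := by
    calc y ≤ 3 * b * b ^ K := hb2
      _ ≤ b ^ 2 * b * b ^ K := by
          apply Nat.mul_le_mul_right
          apply Nat.mul_le_mul_right
          nlinarith
      _ = b ^ (K + 3) := by ring
      _ ≤ b ^ (K * 4) := Nat.pow_le_pow_right hb0 (by omega)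
      _ = (b ^ K) ^ 4 := pow_mul _ _ _
  have e2 : N ≤ (b ^ K) ^ (4 * E) := by
    calc N ≤ y ^ E := hNE
      _ ≤ ((b ^ K) ^ 4) ^ E := Nat.pow_le_pow_left e1 E
      _ = (b ^ K) ^ (4 * E) := (pow_mul _ _ _).symm
  have hz2 : 2 ≤ b ^ K := by
    calc 2 ≤ b := hb
      _ ≤ b ^ K := Nat.le_self_pow (by omega) b
  obtain ⟨hs1, hs2⟩ := Pool.Agent.X37.RD.sing_bounds hN0 hz2 e2
  have hsing : Pool.Agent.X37.RD.sing N = sing N := rfl
  rw [hsing] at hs1 hs2
  obtain ⟨hW1, hW2⟩ := hK0 K (by omega) 0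
  obtain ⟨h2, h3⟩ := hy (Pool.Agent.X37.RD.GP N) (Pool.Agent.X37.RD.GP_deg N)
    (Pool.Agent.X37.RD.GP_adm hNe) x (fun m hm => by
      rw [Pool.Agent.X37.RD.GP_natAbs (by omega)]
      calc m * (N - m) ≤ N * N := Nat.mul_le_mul (by omega) (Nat.sub_le _ _)
        _ ≤ y ^ E * y ^ E := Nat.mul_le_mul hNE hNE
        _ = y ^ (2 * E) := by rw [two_mul, pow_add]) K hK A hA (by rw [hNA]; exact hprod)
  rw [hNA, Pool.Agent.X37.RD.WG_gold hNe] at h2 h3
  obtain ⟨T, hT⟩ : ∃ T, T = ∏ p ∈ ((Icc 1 (b ^ K)).filter Nat.Prime).filter (fun p => p ∣ N ∧ p ≠ 2),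
    Pool.Agent.X37.RD.gf p := ⟨_, rfl⟩
  obtain ⟨W, hWe⟩ : ∃ W, W = Pool.Agent.Y816.PD.WG (Pool.Agent.Y816.PD.TP {0, 2} 0) (b ^ K) := ⟨_, rfl⟩
  rw [← hT] at hs1 hs2 h2 h3
  rw [← hWe] at hW1 hW2 h2 h3
  have hT0 : 0 ≤ T := by
    rw [hT]
    apply prod_nonneg
    intro p hp
    rw [mem_filter, mem_filter] at hp
    have h4 : 3 ≤ p := by
      have := hp.1.2.two_le
      have := hp.2.2
      omega
    exact zero_le_one.trans (Pool.Agent.X37.RD.gf_ge h4)
  have hW0 : 0 ≤ W := le_trans (by positivity) hW1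
  constructor
  · rintro ⟨d, hd, hd1, hd2⟩
    have hdb : d < b := mem_range.1 (hA 0 (by omega) hd)
    have h4 : κ * (choices K A : ℝ) * (W * T) ≤ count b K A (Almost N x y r (b ^ K)) := by
      refine (h2 ⟨d, hd, ?_⟩).trans (Nat.cast_le.2 ?_)
      · rw [Pool.Agent.X37.RD.GP_natAbs (by omega)]
        exact Nat.Coprime.mul_left hd1 hd2
      · unfold Pool.Agent.Y816.PD.DC count
        apply Set.ncard_le_ncard
        · rintro m ⟨⟨⟨hm1, hm2⟩, hm3, hm4⟩, hm5⟩
          have hmN : m ≤ N := by omega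
          rw [Pool.Agent.X37.RD.GP_natAbs hmN] at hm4
          have hm0 : m ≠ 0 := by omega
          have hNm : N - m ≠ 0 := by omega
          have h5 := (Nat.perm_primeFactorsList_mul hm0 hNm).length_eq
          rw [List.length_append] at h5
          refine ⟨⟨⟨hm1, hm2⟩, fun p hp hpd => hm3 p hp
            ((Pool.Agent.X37.RD.GP_dvd hp hmN).2 (Or.inl hpd)), by omega, fun p hp hpd => hm3 p hp
            ((Pool.Agent.X37.RD.GP_dvd hp hmN).2 (Or.inr hpd)), by omega⟩, hm5⟩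
        · apply (finite_toSet (Ioo x (x + y))).subset
          rintro m ⟨⟨hm, -⟩, -⟩
          rw [mem_coe, mem_Ioo]
          exact hm
    refine le_trans ?_ h4
    have h5 : v / (K : ℝ) ^ 2 * (sing N / 2 ^ (4 * E)) ≤ W * T := by
      apply mul_le_mul hW1 _ _ hW0
      · rw [div_le_iff₀ (by positivity)]
        linarith
      · exact div_nonneg (hT0.trans hs1) (by positivity)
    calc κ * v / 2 ^ (4 * E) * (choices K A : ℝ) * sing N / (K : ℝ) ^ 2 =
        κ * (choices K A : ℝ) * (v / (K : ℝ) ^ 2 * (sing N / 2 ^ (4 * E))) := by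
          field_simp
      _ ≤ κ * (choices K A : ℝ) * (W * T) := mul_le_mul_of_nonneg_left h5 (by positivity)
  · have h4 : (count b K A (Primes N x y) : ℝ) ≤ C * (choices K A : ℝ) * (W * T) := by
      refine le_trans (Nat.cast_le.2 ?_) h3
      unfold Pool.Agent.Y816.PD.DC count
      apply Set.ncard_le_ncard
      · rintro m ⟨⟨⟨hm1, hm2⟩, hm3, hm4⟩, hm5⟩
        have hmN : m ≤ N := by omega
        have hbN : b ^ K ≤ N - m := by omega
        refine ⟨⟨⟨hm1, hm2⟩, fun p hp hpd => ?_⟩, hm5⟩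
        rcases (Pool.Agent.X37.RD.GP_dvd hp hmN).1 hpd with h6 | h6
        · rw [(Nat.prime_dvd_prime_iff_eq hp hm3).1 h6]
          exact lt_of_le_of_lt (Nat.mod_le _ _) (lt_self_pow₀ hm3.one_lt (by omega))
        · rw [(Nat.prime_dvd_prime_iff_eq hp hm4).1 h6]
          have h7 : N - m ≤ (N - m) ^ r := Nat.le_self_pow (by omega) _
          exact lt_of_lt_of_le (Nat.mod_lt _ hbK0) (hbN.trans h7)
      · apply (finite_toSet (Ioo x (x + y))).subset
        rintro m ⟨⟨hm, -⟩, -⟩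
        rw [mem_coe, mem_Ioo]
        exact hm
    refine h4.trans ?_
    calc C * (choices K A : ℝ) * (W * T) ≤ C * (choices K A : ℝ) * (Cv / (K : ℝ) ^ 2 * sing N) := by
          apply mul_le_mul_of_nonneg_left _ (by positivity)
          exact mul_le_mul hW2 hs1 hT0 (by positivity)
      _ = C * Cv * choices K A * sing N / (K : ℝ) ^ 2 := by
          field_simp

end Pool.Agent.Results.MP_b58c63_nt.RestrictedDigits
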